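import Pool.Agent.Helper75.PZ.GoalsA

/-!
# Packet LIM of project PZ (MP_acfd82_an): the limit curves
-/

namespace Pool.Agent.Helper91.PZ

open Finset Filter Topology Pool.Agent.Helper75.PZ

variable {M : Type} [MetricSpace M]

/-- Concatenations of uniformly close pieces are uniformly close. -/
theorem cat_close (p : ℕ → M) (t : ℕ → ℝ) (g g' : ℕ → ℝ → M) {C : ℝ} (hC : 0 ≤ C) :
    ∀ n : ℕ, (∀ i < n, ∀ v, dist (g i v) (g' i v) ≤ C) →
      ∀ u, dist (cat p t g n u) (cat p t g' n u) ≤ C := by
  intro n
  induction n with
  | zero => intro _ u; simpa [cat] using hC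
  | succ n ih =>
    intro h u
    simp only [cat]
    split_ifs with hu
    · exact ih (fun i hi v => h i (by omega) v) u
    · exact h n (by omega) _

/-- Two consecutive iterates are close. -/
theorem gam_step (h1 : P_GAM) (R k K s : ℝ) (N : ℕ) (P : M → M → ℕ → M)
    (T : M → M → ℕ → ℝ) (hk0 : 0 ≤ k) (hk1 : k < 1) (hK : 0 ≤ K) (hs : 0 < s) (hs1 : s ≤ 1)
    (hR : Rule M R k K s N P T) :
    ∀ (n : ℕ) (x y : M), dist x y ≤ R → ∀ u,
      dist (Gam P T N (n + 1) x y u) (Gam P T N n x y u)
        ≤ dist x y * ((K / s + 2) * k ^ n) := by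
  have hKs : 0 ≤ K / s := div_nonneg hK hs.le
  intro n
  induction n with
  | zero =>
    intro x y hxy u
    have hG := h1 M R k K s N P T hk0 hk1.le hK hs hs1 hR 1 x y hxy
    have hD : 0 ≤ dist x y := dist_nonneg
    have hnn : 0 ≤ dist x y * ((K / s + 2) * k ^ 0) := by positivity
    rcases le_or_gt u 0 with hu0 | hu0
    · rw [hG.1 u hu0]
      have : Gam P T N 0 x y u = x := by
        simp only [Gam]; rw [if_pos (by linarith)]
      rw [this, dist_self]; exact hnn
    · rcases le_or_gt 1 u with hu1 | hu1
      · have : Gam P T N 0 x y u = y := by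
          simp only [Gam]; rw [if_neg (by linarith)]
        rw [this]
        have h2 := hG.2.1 u hu1
        simp only [zero_add]
        rw [h2, dist_self]; exact hnn
      · have : Gam P T N 0 x y u = x := by
          simp only [Gam]; rw [if_pos hu1]
        rw [this, dist_comm]
        simp only [zero_add]
        refine (hG.2.2.1 u hu0.le).trans ?_
        refine mul_le_mul_of_nonneg_left ?_ hD
        have hus : u ^ s ≤ 1 := Real.rpow_le_one hu0.le hu1.le hs.le
        have : K / s * u ^ s ≤ K / s * 1 := mul_le_mul_of_nonneg_left hus hKs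
        simp only [pow_one, pow_zero, mul_one] at *
        linarith
  | succ n ih =>
    intro x y hxy u
    have hD : 0 ≤ dist x y := dist_nonneg
    have hnn : 0 ≤ dist x y * ((K / s + 2) * k ^ (n + 1)) := by positivity
    by_cases hne : x = y
    · have e1 : Gam P T N (n + 1 + 1) x y u = x := by
        rw [Gam]; exact if_pos hne
      have e2 : Gam P T N (n + 1) x y u = x := by
        rw [Gam]; exact if_pos hne
      rw [e1, e2, dist_self]; exact hnn
    · have e1 : Gam P T N (n + 1 + 1) x y u = cat (P x y) (T x y)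
          (fun i v => Gam P T N (n + 1) (P x y i) (P x y (i + 1)) (v / T x y i)) N u := by
        rw [Gam]; exact if_neg hne
      have e2 : Gam P T N (n + 1) x y u = cat (P x y) (T x y)
          (fun i v => Gam P T N n (P x y i) (P x y (i + 1)) (v / T x y i)) N u := by
        rw [Gam]; exact if_neg hne
      rw [e1, e2]
      refine cat_close _ _ _ _ hnn N ?_ u
      intro i hi v
      have ha : dist (P x y i) (P x y (i + 1)) ≤ k * dist x y := hR.hk x y hne hxy i hi
      have hle : k * dist x y ≤ dist x y := by nlinarith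
      refine (ih (P x y i) (P x y (i + 1)) (by linarith) (v / T x y i)).trans ?_
      have hq : 0 ≤ (K / s + 2) * k ^ n := by positivity
      calc dist (P x y i) (P x y (i + 1)) * ((K / s + 2) * k ^ n)
          ≤ (k * dist x y) * ((K / s + 2) * k ^ n) := mul_le_mul_of_nonneg_right ha hq
        _ = dist x y * ((K / s + 2) * k ^ (n + 1)) := by ring

theorem lim (h1 : P_GAM) : P_LIM := by
  classical
  intro M _ _ R k K s N P T hk0 hk1 hK hs hs1 hR
  have hKs : 0 ≤ K / s := div_nonneg hK hs.le
  have hex : ∀ x y : M, dist x y ≤ R → ∀ u, ∃ l : M,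
      Tendsto (fun n => Gam P T N n x y u) atTop (𝓝 l) := by
    intro x y hxy u
    have hc : CauchySeq (fun n => Gam P T N n x y u) := by
      refine cauchySeq_of_le_geometric k (dist x y * (K / s + 2)) hk1 ?_
      intro n
      have := gam_step h1 R k K s N P T hk0 hk1 hK hs hs1 hR n x y hxy u
      rw [dist_comm]
      refine this.trans (le_of_eq (by ring))
    exact cauchySeq_tendsto_of_complete hc
  refine ⟨fun x y u => if h : dist x y ≤ R then (hex x y h u).choose else x, ?_⟩
  intro x y hxy
  have hL : ∀ u, Tendsto (fun n => Gam P T N n x y u) atTop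
      (𝓝 (if h : dist x y ≤ R then (hex x y h u).choose else x)) := by
    intro u
    rw [dif_pos hxy]
    exact (hex x y hxy u).choose_spec
  have hG := fun n => h1 M R k K s N P T hk0 hk1.le hK hs hs1 hR n x y hxy
  have hkn : Tendsto (fun n : ℕ => k ^ n) atTop (𝓝 0) :=
    tendsto_pow_atTop_nhds_zero_of_lt_one hk0 hk1
  have key : ∀ u v, u ≤ v →
      dist (if h : dist x y ≤ R then (hex x y h u).choose else x)
        (if h : dist x y ≤ R then (hex x y h v).choose else x)
        ≤ dist x y * (2 ^ (1 - s) * (K / s) * (v - u) ^ s) := by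
    intro u v huv
    have t1 := (hL u).dist (hL v)
    have t2 : Tendsto (fun n : ℕ => dist x y * (2 ^ (1 - s) * (K / s) * (v - u) ^ s + 2 * k ^ n))
        atTop (𝓝 (dist x y * (2 ^ (1 - s) * (K / s) * (v - u) ^ s + 2 * 0))) :=
      ((hkn.const_mul 2).const_add _).const_mul _
    have := le_of_tendsto_of_tendsto' t1 t2 (fun n => (hG n).2.2.2.2 u v huv)
    simpa using this
  refine ⟨hL, ?_, ?_, ?_⟩
  · refine tendsto_nhds_unique (hL 0) ?_
    have : (fun n => Gam P T N n x y 0) = fun _ => x := by
      funext n; exact (hG n).1 0 le_rfl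
    rw [this]; exact tendsto_const_nhds
  · refine tendsto_nhds_unique (hL 1) ?_
    have : (fun n => Gam P T N n x y 1) = fun _ => y := by
      funext n; exact (hG n).2.1 1 le_rfl
    rw [this]; exact tendsto_const_nhds
  · intro u v
    rcases le_total u v with huv | huv
    · have := key u v huv
      rw [abs_sub_comm, abs_of_nonneg (by linarith : 0 ≤ v - u)]
      exact this
    · have := key v u huv
      rw [dist_comm, abs_of_nonneg (by linarith : 0 ≤ u - v)]
      exact this

end Pool.Agent.Helper91.PZ
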